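import Pool.Agent.Helper55.RG.Spec3

/-! Part KUM of the RG project: quadratic characters are given by square roots. -/

set_option autoImplicit false

namespace Pool.Agent.Helper47.RG.KUM

open Pool.Agent.Helper55.RG

theorem main : S_KUM := by
  intro K Ω _ _ _ _ _ L χ hχ hmul S hS hSχ
  have h2 : (-1 : Ω) ≠ 1 := by
    have : CharZero Ω := charZero_of_injective_algebraMap (algebraMap K Ω).injective
    intro h
    have : (2 : Ω) = 0 := by linear_combination -h
    exact two_ne_zero this
  have hr : ∀ σ : Ω ≃ₐ[L] Ω, σ.restrictScalars K ∈ L.fixingSubgroup := by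
    intro σ
    rw [IntermediateField.mem_fixingSubgroup_iff]
    intro x hx
    exact σ.commutes ⟨x, hx⟩
  have hrm : ∀ σ τ : Ω ≃ₐ[L] Ω, (σ * τ).restrictScalars K =
      σ.restrictScalars K * τ.restrictScalars K := fun σ τ => rfl
  have hm : ∀ σ τ : Ω ≃ₐ[L] Ω, χ ((σ * τ).restrictScalars K) =
      χ (σ.restrictScalars K) * χ (τ.restrictScalars K) := by
    intro σ τ
    rw [hrm]
    exact hmul _ (hr σ) _ (hr τ)
  have h1 : χ ((1 : Ω ≃ₐ[L] Ω).restrictScalars K) = 1 := by
    have h := hm 1 1
    rw [mul_one] at h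
    rcases hχ ((1 : Ω ≃ₐ[L] Ω).restrictScalars K) with h3 | h3
    · exact h3
    · rw [h3] at h
      exact absurd (by linear_combination h) h2
  let M : Subgroup (Ω ≃ₐ[L] Ω) :=
    { carrier := {σ | χ (σ.restrictScalars K) = 1}
      mul_mem' := by
        intro σ τ hσ hτ
        show χ ((σ * τ).restrictScalars K) = 1
        rw [hm, hσ, hτ, one_mul]
      one_mem' := h1
      inv_mem' := by
        intro σ hσ
        show χ ((σ⁻¹).restrictScalars K) = 1
        have h := hm σ σ⁻¹
        rw [mul_inv_cancel, h1] at h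
        have h3 : χ (σ.restrictScalars K) = 1 := hσ
        rw [h3, one_mul] at h
        exact h.symm }
  have hM : ∀ σ, σ ∈ M ↔ χ (σ.restrictScalars K) = 1 := fun σ => Iff.rfl
  have : Algebra.IsAlgebraic L Ω := inferInstance
  have hSf : Finite S := hS.to_subtype
  have hopen : IsOpen (M : Set (Ω ≃ₐ[L] Ω)) := by
    have : FiniteDimensional L (IntermediateField.adjoin L S) := by
      refine IntermediateField.finiteDimensional_adjoin (S := S) fun x _ => ?_
      exact Algebra.IsIntegral.isIntegral x
    refine Subgroup.isOpen_mono (H₁ := (IntermediateField.adjoin L S).fixingSubgroup) ?_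
      (IntermediateField.fixingSubgroup_isOpen _)
    intro σ hσ
    rw [hM]
    refine hSχ _ (hr σ) fun x hx => ?_
    rw [IntermediateField.mem_fixingSubgroup_iff] at hσ
    exact hσ x (IntermediateField.subset_adjoin L S hx)
  have hclosed : IsClosed (M : Set (Ω ≃ₐ[L] Ω)) := Subgroup.isClosed_of_isOpen M hopen
  have hfix : (IntermediateField.fixedField M).fixingSubgroup = M :=
    InfiniteGalois.fixingSubgroup_fixedField ⟨M, hclosed⟩
  -- elements of the fixing subgroup come from `L`-automorphisms
  have hlift : ∀ σ ∈ L.fixingSubgroup, ∃ τ : Ω ≃ₐ[L] Ω, τ.restrictScalars K = σ := by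
    intro σ hσ
    refine ⟨IntermediateField.fixingSubgroupEquiv L ⟨σ, hσ⟩, ?_⟩
    ext x
    rfl
  by_cases hall : ∀ σ : Ω ≃ₐ[L] Ω, σ ∈ M
  · refine ⟨1, one_ne_zero, ?_, fun σ hσ => ?_⟩
    · rw [one_pow]; exact L.one_mem
    · obtain ⟨τ, hτ⟩ := hlift σ hσ
      have := (hM τ).1 (hall τ)
      rw [hτ] at this
      rw [this, map_one, one_mul]
  · push Not at hall
    obtain ⟨s, hs⟩ := hall
    have hs' := hs
    rw [← hfix, IntermediateField.mem_fixingSubgroup_iff] at hs'
    push Not at hs'
    obtain ⟨z, hz, hsz⟩ := hs'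
    have hzM : ∀ τ ∈ M, τ z = z := by
      intro τ hτ
      exact (IntermediateField.mem_fixedField_iff M z).1 hz τ hτ
    have hval : ∀ σ : Ω ≃ₐ[L] Ω, σ ∉ M → χ (σ.restrictScalars K) = -1 := by
      intro σ hσ
      exact (hχ _).resolve_left hσ
    have hsχ := hval s hs
    have hsinv : χ ((s⁻¹).restrictScalars K) = -1 := by
      refine hval _ fun h => hs ?_
      have := M.inv_mem h
      rwa [inv_inv] at this
    refine ⟨z - s z, sub_ne_zero.2 (Ne.symm hsz), ?_, ?_⟩
    · have hy : ∀ τ : Ω ≃ₐ[L] Ω, τ ((z - s z) ^ 2) = (z - s z) ^ 2 := by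
        intro τ
        by_cases hτ : τ ∈ M
        · have h3 : s⁻¹ * τ * s ∈ M := by
            rw [hM, hm, hm, hsχ, hsinv, (hM τ).1 hτ]; ring
          have h4 : τ (s z) = s z := by
            have h5 := hzM _ h3
            have h6 : s ((s⁻¹ * τ * s) z) = τ (s z) := by
              rw [AlgEquiv.mul_apply, AlgEquiv.mul_apply, ← AlgEquiv.mul_apply s,
                mul_inv_cancel, AlgEquiv.one_apply]
            rw [← h6, h5]
          rw [map_pow, map_sub, hzM τ hτ, h4]
        · have hτχ := hval τ hτ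
          have h3 : s⁻¹ * τ ∈ M := by
            rw [hM, hm, hsinv, hτχ]; ring
          have h4 : τ z = s z := by
            have h5 := hzM _ h3
            have h6 : s ((s⁻¹ * τ) z) = τ z := by
              rw [AlgEquiv.mul_apply, ← AlgEquiv.mul_apply s, mul_inv_cancel, AlgEquiv.one_apply]
            rw [← h6, h5]
          have h7 : τ * s ∈ M := by
            rw [hM, hm, hsχ, hτχ]; ring
          have h8 : τ (s z) = z := by
            rw [← AlgEquiv.mul_apply]; exact hzM _ h7
          rw [map_pow, map_sub, h4, h8]; ring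
      have h9 := (InfiniteGalois.mem_range_algebraMap_iff_fixed (k := L) (K := Ω)
        ((z - s z) ^ 2)).2 hy
      obtain ⟨w, hw⟩ := h9
      rw [← hw]
      exact w.2
    · intro σ hσ
      obtain ⟨τ, rfl⟩ := hlift σ hσ
      show τ (z - s z) = χ (τ.restrictScalars K) * (z - s z)
      by_cases hτ : τ ∈ M
      · have h3 : s⁻¹ * τ * s ∈ M := by
          rw [hM, hm, hm, hsχ, hsinv, (hM τ).1 hτ]; ring
        have h4 : τ (s z) = s z := by
          have h5 := hzM _ h3
          have h6 : s ((s⁻¹ * τ * s) z) = τ (s z) := by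
            rw [AlgEquiv.mul_apply, AlgEquiv.mul_apply, ← AlgEquiv.mul_apply s,
              mul_inv_cancel, AlgEquiv.one_apply]
          rw [← h6, h5]
        rw [map_sub, hzM τ hτ, h4, (hM τ).1 hτ, one_mul]
      · have hτχ := hval τ hτ
        have h3 : s⁻¹ * τ ∈ M := by
          rw [hM, hm, hsinv, hτχ]; ring
        have h4 : τ z = s z := by
          have h5 := hzM _ h3
          have h6 : s ((s⁻¹ * τ) z) = τ z := by
            rw [AlgEquiv.mul_apply, ← AlgEquiv.mul_apply s, mul_inv_cancel, AlgEquiv.one_apply]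
          rw [← h6, h5]
        have h7 : τ * s ∈ M := by
          rw [hM, hm, hsχ, hτχ]; ring
        have h8 : τ (s z) = z := by
          rw [← AlgEquiv.mul_apply]; exact hzM _ h7
        rw [map_sub, h4, h8, hτχ]; ring

end Pool.Agent.Helper47.RG.KUM
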