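import Pool.Agent.Helper55.RG.Spec3

/-! Part PRK of the RG project: primitive elements which are integral over `k[t]`. -/

set_option autoImplicit false

namespace Pool.Agent.Helper47.RG.PRK

open Pool.Agent.Helper55.RG Polynomial

theorem main : S_PRK := by
  intro k K L _ _ _ _ _ _ _ _
  have injK : Function.Injective (algebraMap k[X] K) := IsFractionRing.injective k[X] K
  have hcK : CharZero K := by
    constructor
    intro m n h
    have h1 : ((algebraMap k[X] K).comp C) (m : k) = ((algebraMap k[X] K).comp C) (n : k) := by
      rw [map_natCast, map_natCast]; exact h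
    exact Nat.cast_injective (((algebraMap k[X] K).comp C).injective h1)
  letI : Algebra k[X] L := ((algebraMap K L).comp (algebraMap k[X] K)).toAlgebra
  have hst : IsScalarTower k[X] K L := IsScalarTower.of_algebraMap_eq fun _ => rfl
  obtain ⟨α₀, hα₀⟩ := Field.exists_primitive_element K L
  have halg : IsAlgebraic k[X] α₀ := by
    have h1 : IsAlgebraic K α₀ := Algebra.IsAlgebraic.isAlgebraic α₀
    exact (IsFractionRing.isAlgebraic_iff k[X] K L).2 h1
  obtain ⟨c, hc0, hcint⟩ := halg.exists_integral_multiple
  set α := c • α₀ with hα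
  have hcK0 : algebraMap k[X] K c ≠ 0 := by
    intro h
    exact hc0 (injK (by rw [h, map_zero]))
  have hαK : α = (algebraMap k[X] K c) • α₀ := by
    rw [hα, algebraMap_smul]
  have hprim : IntermediateField.adjoin K {α} = ⊤ := by
    rw [← top_le_iff, ← hα₀, IntermediateField.adjoin_simple_le_iff]
    have h1 : α₀ = (algebraMap k[X] K c)⁻¹ • α := by
      rw [hαK, smul_smul, inv_mul_cancel₀ hcK0, one_smul]
    rw [h1]
    exact IntermediateField.smul_mem _ (IntermediateField.mem_adjoin_simple_self K α)
  have hmin : minpoly K α = (minpoly k[X] α).map (algebraMap k[X] K) :=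
    minpoly.isIntegrallyClosed_eq_field_fractions' K hcint
  have hirr : Irreducible ((minpoly k[X] α).map (algebraMap k[X] K)) := by
    rw [← hmin]
    exact minpoly.irreducible (Algebra.IsIntegral.isIntegral α)
  have hsep : ((minpoly k[X] α).map (algebraMap k[X] K)).Separable := hirr.separable
  obtain ⟨a, b, hab⟩ := hsep
  obtain ⟨sa, hsa, ha⟩ := IsLocalization.integerNormalization_spec (nonZeroDivisors k[X]) a
  obtain ⟨sb, hsb, hb⟩ := IsLocalization.integerNormalization_spec (nonZeroDivisors k[X]) b
  refine ⟨α, minpoly k[X] α, C sb * IsLocalization.integerNormalization (nonZeroDivisors k[X]) a,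
    C sa * IsLocalization.integerNormalization (nonZeroDivisors k[X]) b, sa * sb, hprim,
    minpoly.monic hcint, ?_, hirr, ?_, ?_⟩
  · have := minpoly.aeval k[X] α
    rw [aeval_def] at this
    exact this
  · exact mul_ne_zero (nonZeroDivisors.ne_zero hsa) (nonZeroDivisors.ne_zero hsb)
  · apply Polynomial.map_injective _ injK
    rw [Polynomial.map_add, Polynomial.map_mul, Polynomial.map_mul, Polynomial.map_mul,
      Polynomial.map_mul, ← Polynomial.derivative_map, ha, hb, map_C, map_C, map_C]
    have e : ∀ (s : k[X]) (f : K[X]), s • f = C (algebraMap k[X] K s) * f := by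
      intro s f
      rw [← Polynomial.smul_eq_C_mul, algebraMap_smul]
    rw [e, e, map_mul, C_mul]
    linear_combination (C (algebraMap k[X] K sa) * C (algebraMap k[X] K sb)) * hab

end Pool.Agent.Helper47.RG.PRK
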