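import Pool.Agent.Helper55.RG.Spec5

/-!
# Part CH1: characters of the group of the automorphisms which fix a finite extension of the constants
-/

set_option autoImplicit false
set_option linter.all false

open Polynomial IsDedekindDomain
open scoped Classical

namespace Pool.Agent.Helper47.RG.CH1

open Pool.Agent.TH115.GD Pool.Agent.R939.EI Pool.Agent.Helper55.TT Pool.Agent.Helper55.UV
open Pool.Agent.Helper55.RG

/-- an automorphism of `Ω` over `K₁` fixes the field `K` if each element of `K` comes from `K₁` -/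
noncomputable def down {K K₁ Ω : Type} [Field K] [Field K₁] [Field Ω] [Algebra K Ω] [Algebra K₁ Ω]
    (h : ∀ x : K, ∃ y : K₁, algebraMap K Ω x = algebraMap K₁ Ω y) (g : Ω ≃ₐ[K₁] Ω) : Ω ≃ₐ[K] Ω :=
  AlgEquiv.ofRingEquiv (f := g.toRingEquiv) (fun x => by
    obtain ⟨y, hy⟩ := h x
    rw [hy]
    exact g.commutes y)

theorem down_apply {K K₁ Ω : Type} [Field K] [Field K₁] [Field Ω] [Algebra K Ω] [Algebra K₁ Ω]
    (h : ∀ x : K, ∃ y : K₁, algebraMap K Ω x = algebraMap K₁ Ω y) (g : Ω ≃ₐ[K₁] Ω) (x : Ω) :
    down h g x = g x := rfl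

theorem main : S_CH1 := by
  intro k k' K F _ _ _ _ _ _ _ _ _ _ hT k₁ _ s π hs hπ hind θ hθ hθs ι Γ₁ hΓ χ hχ hmul S hS hSχ
    hunr hD
  haveI := hT.sep
  haveI := hT.fracK
  haveI : IsSepClosed k' := IsSepClosure.sep_closed k
  haveI : Algebra.IsSeparable k k' := IsSepClosure.separable
  haveI : Algebra.IsSeparable k₁ k' := Algebra.isSeparable_tower_top_of_isSeparable k k₁ k'
  haveI : IsSepClosure k₁ k' := ⟨inferInstance, inferInstance⟩
  -- the field `K₁`
  have hinj : Function.Injective ((algebraMap k'[X] F).comp (mapRingHom (algebraMap k₁ k'))) := by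
    apply (IsFractionRing.injective k'[X] F).comp
    exact Polynomial.map_injective _ (algebraMap k₁ k').injective
  let f₁ : FractionRing k₁[X] →+* F := IsFractionRing.lift hinj
  letI algF : Algebra (FractionRing k₁[X]) F := f₁.toAlgebra
  have hmap₁ : ∀ p : k₁[X], algebraMap (FractionRing k₁[X]) F
      (algebraMap k₁[X] (FractionRing k₁[X]) p) =
      algebraMap k'[X] F (p.map (algebraMap k₁ k')) := by
    intro p
    exact IsFractionRing.lift_algebraMap hinj p
  have hT₁ : IsTower k₁ k' (FractionRing k₁[X]) F := ⟨inferInstance, inferInstance, hmap₁⟩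
  -- `K` is in the image of `K₁`
  have hKF : ∀ x : K, ∃ y : FractionRing k₁[X],
      algebraMap K F x = algebraMap (FractionRing k₁[X]) F y := by
    intro x
    obtain ⟨a, b, hb, e⟩ := IsFractionRing.div_surjective (A := k[X]) (K := K) x
    refine ⟨algebraMap k₁[X] (FractionRing k₁[X]) (a.map (algebraMap k k₁)) /
      algebraMap k₁[X] (FractionRing k₁[X]) (b.map (algebraMap k k₁)), ?_⟩
    rw [← e, map_div₀, map_div₀, hT.map, hT.map, hmap₁, hmap₁, Polynomial.map_map,
      Polynomial.map_map, ← IsScalarTower.algebraMap_eq k k₁ k']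
  have hKΩ : ∀ x : K, ∃ y : FractionRing k₁[X],
      algebraMap K (Sep F) x = algebraMap (FractionRing k₁[X]) (Sep F) y := by
    intro x
    obtain ⟨y, hy⟩ := hKF x
    refine ⟨y, ?_⟩
    rw [IsScalarTower.algebraMap_apply K F (Sep F), hy,
      ← IsScalarTower.algebraMap_apply (FractionRing k₁[X]) F (Sep F)]
  have hKΩ' : ∀ (v : HeightOneSpectrum k'[X]) (x : K), ∃ y : FractionRing k₁[X],
      algebraMap K (Sep (Comp k'[X] F v)) x =
        algebraMap (FractionRing k₁[X]) (Sep (Comp k'[X] F v)) y := by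
    intro v x
    obtain ⟨y, hy⟩ := hKF x
    refine ⟨y, ?_⟩
    rw [IsScalarTower.algebraMap_apply K F (Sep (Comp k'[X] F v)), hy,
      ← IsScalarTower.algebraMap_apply (FractionRing k₁[X]) F (Sep (Comp k'[X] F v))]
  -- constants
  have hconst : ∀ c (hc : c ∈ k₁), em k' F (Sep F) (C c) =
      algebraMap (FractionRing k₁[X]) (Sep F)
        (algebraMap k₁[X] (FractionRing k₁[X]) (C ⟨c, hc⟩)) := by
    intro c hc
    rw [IsScalarTower.algebraMap_apply (FractionRing k₁[X]) F (Sep F), hmap₁, Polynomial.map_C]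
    rfl
  -- down is in Γ₁
  have hdΓ : ∀ g : Sep F ≃ₐ[FractionRing k₁[X]] Sep F, down hKΩ g ∈ Γ₁ := by
    intro g
    rw [hΓ]
    intro c hc
    rw [down_apply, hconst c hc, g.commutes]
  -- lifts
  have hup : ∀ τ ∈ Γ₁, ∃ g : Sep F ≃ₐ[FractionRing k₁[X]] Sep F, down hKΩ g = τ := by
    intro τ hτ
    have h1 : ∀ p : k₁[X], τ (algebraMap (FractionRing k₁[X]) (Sep F)
        (algebraMap k₁[X] (FractionRing k₁[X]) p)) = algebraMap (FractionRing k₁[X]) (Sep F)
        (algebraMap k₁[X] (FractionRing k₁[X]) p) := by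
      have h2 : (τ : Sep F →+* Sep F).comp ((algebraMap (FractionRing k₁[X]) (Sep F)).comp
          (algebraMap k₁[X] (FractionRing k₁[X]))) = (algebraMap (FractionRing k₁[X]) (Sep F)).comp
          (algebraMap k₁[X] (FractionRing k₁[X])) := by
        apply Polynomial.ringHom_ext
        · intro a
          have h3 := (hΓ τ).1 hτ a.1 a.2
          rw [hconst a.1 a.2] at h3
          exact h3
        · have h3 : algebraMap (FractionRing k₁[X]) (Sep F)
              (algebraMap k₁[X] (FractionRing k₁[X]) X) =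
              algebraMap K (Sep F) (algebraMap k[X] K X) := by
            rw [IsScalarTower.algebraMap_apply (FractionRing k₁[X]) F (Sep F), hmap₁,
              IsScalarTower.algebraMap_apply K F (Sep F), hT.map, Polynomial.map_X,
              Polynomial.map_X]
          show τ (algebraMap (FractionRing k₁[X]) (Sep F)
              (algebraMap k₁[X] (FractionRing k₁[X]) X)) = algebraMap (FractionRing k₁[X]) (Sep F)
              (algebraMap k₁[X] (FractionRing k₁[X]) X)
          rw [h3]
          exact τ.commutes _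
      intro p
      exact RingHom.congr_fun h2 p
    refine ⟨AlgEquiv.ofRingEquiv (f := τ.toRingEquiv) (fun y => ?_), ?_⟩
    · obtain ⟨a, b, hb, e⟩ := IsFractionRing.div_surjective (A := k₁[X]) (K := FractionRing k₁[X]) y
      show τ (algebraMap (FractionRing k₁[X]) (Sep F) y) = _
      rw [← e, map_div₀ (algebraMap (FractionRing k₁[X]) (Sep F)), map_div₀ τ, h1, h1]
    · exact AlgEquiv.ext fun x => rfl
  have h2k : (2 : k₁) ≠ 0 := by
    haveI : CharZero k₁ := charZero_of_injective_algebraMap (algebraMap k k₁).injective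
    exact two_ne_zero
  haveI : CharZero k₁ := charZero_of_injective_algebraMap (algebraMap k k₁).injective
  have hmm : (s.map (algebraMap k k₁)).map (algebraMap k₁ k') = s.map (algebraMap k k') := by
    rw [Polynomial.map_map, ← IsScalarTower.algebraMap_eq k k₁ k']
  haveI : Algebra.IsSeparable F (Sep F) := IsSepClosure.separable
  have hrs : ∀ σ : Sep F ≃ₐ[F] Sep F, down hKΩ (σ.restrictScalars (FractionRing k₁[X])) =
      σ.restrictScalars K := fun σ => AlgEquiv.ext fun x => rfl
  have key := char_one (k := k₁) (k' := k') (K := FractionRing k₁[X]) (F := F) hT₁ h2k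
    (p := s.map (algebraMap k k₁))
    ((Polynomial.map_ne_zero_iff (algebraMap k k₁).injective).2 hs)
    (fun q hq _ => hq.separable) (π := π.map (algebraMap k k₁)) hπ hind (θ := θ)
    (by rw [aeval_map_algebraMap]; exact hθ) ι (χ := fun g => χ (down hKΩ g))
    (fun σ => hχ _) (fun σ τ => by
      have : down hKΩ (σ * τ) = down hKΩ σ * down hKΩ τ := AlgEquiv.ext fun x => rfl
      show χ _ = χ _ * χ _
      rw [this]
      exact hmul _ (hdΓ σ) _ (hdΓ τ)) (S := S) hS (fun u hu => hSχ _ (hdΓ u) hu)
    (by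
      intro z e z0 hz hσz v hv
      let ιv : Sep F →ₐ[F] Sep (Comp k'[X] F v) := IsSepClosed.lift
      refine par_unram v ιv hz fun σ hσ => ?_
      have h3 := hσz σ
      rw [hrs, hunr v (by rwa [hmm] at hv) ιv σ hσ, one_mul] at h3
      exact h3)
    (by
      intro σ hσ
      show χ (down hKΩ (σ.restrictScalars (FractionRing k₁[X]))) = 1
      rw [hrs]
      refine hunr (pl θ) ?_ ι σ hσ
      rw [mem_pl, IsRoot.def, eval_map_algebraMap]
      exact hθs)
    (by
      intro g hg
      obtain ⟨G, γ, hG, hGι⟩ := hg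
      refine hD _ (hdΓ g) ⟨down (hKΩ' (pl θ)) G, γ, fun x => hG x, fun x => hGι x⟩)
  intro g hg
  obtain ⟨g₁, rfl⟩ := hup g hg
  exact key g₁

end Pool.Agent.Helper47.RG.CH1
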