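import Pool.Agent.Helper55.RG.Spec3
import Pool.Agent.Helper47.RG.PRK

/-! Part PRI of the RG project: primitive elements which are integral over `κ[t]`. -/

set_option autoImplicit false

namespace Pool.Agent.Helper47.RG.PRI

open Pool.Agent.Helper55.RG Polynomial FF IntermediateField
open scoped algebraAdjoinAdjoin

theorem main : S_PRI := by
  intro κ N _ _ _ _ _ t ht
  let A := Algebra.adjoin κ {t}
  let e := Polynomial.algEquivOfTranscendental κ t ht
  let K := IntermediateField.adjoin κ {t}
  have hfin : FiniteDimensional K N := IsFF.finite ht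
  let ψ : κ[X] →+* K := (algebraMap A K).comp (e.symm.toRingEquiv.symm.toRingHom)
  letI algK : Algebra κ[X] K := ψ.toAlgebra
  have h1 : IsFractionRing A K := inferInstance
  have hfrac : IsFractionRing κ[X] K :=
    (IsFractionRing.isFractionRing_iff_of_base_ringEquiv (S := K) e.symm.toRingEquiv).1 h1
  obtain ⟨α, g, P, Q, s, h1, h2, h3, h4, h5, h6⟩ := PRK.main κ K N
  have hψ : (algebraMap K N).comp (algebraMap κ[X] K) =
      eval₂RingHom (algebraMap κ N) t := by
    apply Polynomial.ringHom_ext
    · intro a
      have : ψ (C a) = algebraMap κ K a := by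
        show algebraMap A K (e (C a)) = algebraMap κ K a
        have h7 : e (C a) = algebraMap κ A a := e.commutes a
        rw [h7]
        rfl
      show algebraMap K N (ψ (C a)) = _
      rw [this]
      simp
    · have : (algebraMap K N) (ψ X) = t := by
        have h7 : e X = ⟨t, Algebra.self_mem_adjoin_singleton κ t⟩ :=
          Polynomial.algEquivOfTranscendental_apply_X κ t ht
        show algebraMap K N (algebraMap A K (e X)) = t
        rw [h7]
        rfl
      show algebraMap K N (ψ X) = _
      rw [this]
      simp
  refine ⟨α, g, P, Q, s, ?_, h2, ?_, h5, h6⟩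
  · rw [← IntermediateField.adjoin_simple_adjoin_simple κ t α, h1]
    rfl
  · unfold ev2
    rw [← hψ]
    exact h3

end Pool.Agent.Helper47.RG.PRI
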