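import Pool.Agent.Helper55.RG.Spec3

/-! Part SQR of the RG project: square roots of Laurent series of even order. -/

set_option autoImplicit false

namespace Pool.Agent.Helper47.RG.SQR

open Pool.Agent.Helper55.RG Polynomial

theorem main : S_SQR := by
  intro Ω _ _ _ f hf hev
  obtain ⟨m, hm⟩ := hev
  set P := f.powerSeriesPart with hP
  have hP0 : PowerSeries.coeff 0 P ≠ 0 := by
    rw [hP, LaurentSeries.powerSeriesPart_coeff]
    simpa using hf
  obtain ⟨c, hc⟩ := IsAlgClosed.exists_pow_nat_eq (PowerSeries.coeff 0 P) (show 0 < 2 by norm_num)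
  have hc0 : c ≠ 0 := by
    rintro rfl
    exact hP0 (by rw [← hc]; simp)
  have : HenselianRing (PowerSeries Ω) (Ideal.span {(PowerSeries.X : PowerSeries Ω)}) :=
    IsAdicComplete.henselianRing _ _
  obtain ⟨a, ha, -⟩ := HenselianRing.is_henselian
    (I := Ideal.span {(PowerSeries.X : PowerSeries Ω)})
    (Polynomial.X ^ 2 - Polynomial.C P) (Polynomial.monic_X_pow_sub_C P (by norm_num))
    (PowerSeries.C c) (by
      rw [Ideal.mem_span_singleton, PowerSeries.X_dvd_iff]
      simp only [eval_sub, eval_pow, eval_X, eval_C, map_sub, map_pow,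
        PowerSeries.constantCoeff_C]
      rw [hc, PowerSeries.coeff_zero_eq_constantCoeff_apply, sub_self]) (by
      refine IsUnit.map _ ?_
      rw [PowerSeries.isUnit_iff_constantCoeff]
      have h2 : (2 : Ω) ≠ 0 := two_ne_zero
      simp [hc0])
  have ha2 : a ^ 2 = P := by
    have h := ha
    rw [Polynomial.IsRoot.def] at h
    simp only [eval_sub, eval_pow, eval_X, eval_C] at h
    exact sub_eq_zero.1 h
  refine ⟨HahnSeries.single m 1 * HahnSeries.ofPowerSeries ℤ Ω a, ?_⟩
  rw [mul_pow, ← map_pow (HahnSeries.ofPowerSeries ℤ Ω), ha2, sq, HahnSeries.single_mul_single, ← hm, one_mul, hP]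
  exact LaurentSeries.single_order_mul_powerSeriesPart f

end Pool.Agent.Helper47.RG.SQR
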